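import Mathlib
import Pool.Agent.H33.LU

set_option autoImplicit false

namespace Pool.Agent.Results.MP_49fc99_mp.Anticommuting

open Matrix
open scoped ComplexOrder

/-- Density operators. -/
def IsState {ι : Type} [Fintype ι] (ρ : Matrix ι ι ℂ) : Prop := ρ.PosSemidef ∧ ρ.trace = 1

/-- POVMs with a finite outcome set. -/
def IsPOVM {ι S : Type} [Fintype ι] [DecidableEq ι] [Fintype S] (Q : S → Matrix ι ι ℂ) : Prop :=
  (∀ s, (Q s).PosSemidef) ∧ ∑ s, Q s = 1

/-- An (n, m, p) quantum random access code on an arbitrary finite-dimensional space. -/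
def IsCode {ι : Type} [Fintype ι] [DecidableEq ι] {n : ℕ} (p : ℝ)
    (ρ : (Fin n → Fin 2) → Matrix ι ι ℂ) : Prop :=
  (∀ x, IsState (ρ x)) ∧
    ∀ i : Fin n, ∃ M : Fin 2 → Matrix ι ι ℂ, IsPOVM M ∧ ∀ x, p ≤ (M (x i) * ρ x).trace.re

/-- The probability that the outcome y differs from x in bit i. -/
noncomputable def errProb {ι : Type} [Fintype ι] {n : ℕ} (Q ρ : (Fin n → Fin 2) → Matrix ι ι ℂ)
    (x : Fin n → Fin 2) (i : Fin n) : ℝ :=
  ∑ y with y i ≠ x i, (Q y * ρ x).trace.re

section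
variable {V : Type} [Fintype V] [DecidableEq V]

lemma tr_zero (A B : Matrix V V ℂ) (h : A * B = -(B * A)) : (A * B).trace = 0 := by
  have := congrArg Matrix.trace h
  rw [Matrix.trace_neg, Matrix.trace_mul_comm B A] at this
  linear_combination (1 / 2 : ℂ) * this

structure Fam (A : Fin 25 → Matrix V V ℂ) : Prop where
  h1 : ∀ i, (A i)ᴴ = A i
  h2 : ∀ i, A i * A i = 1
  h3 : ∀ i j, i ≠ j → A i * A j = -(A j * A i)

lemma Fam.tr {A : Fin 25 → Matrix V V ℂ} (F : Fam A) (i : Fin 25) : (A i).trace = 0 := by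
  obtain ⟨j, hj⟩ := exists_ne i
  have := tr_zero (A j) (A j * A i) (by rw [Matrix.mul_assoc, F.h3 i j hj.symm]; simp)
  rwa [← Matrix.mul_assoc, F.h2, Matrix.one_mul] at this

lemma Fam.sq {A : Fin 25 → Matrix V V ℂ} (F : Fam A) (s : Fin 25 → ℝ) (hs : ∀ i, s i * s i = 1) :
    (∑ i, (s i : ℂ) • A i) * (∑ i, (s i : ℂ) • A i) = (25 : ℂ) • 1 := by
  have e : ∀ i j, ((s i : ℂ) • A i) * ((s j : ℂ) • A j) + ((s j : ℂ) • A j) * ((s i : ℂ) • A i) =
      if i = j then (2 : ℂ) • 1 else 0 := by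
    intro i j
    by_cases h : i = j
    · subst h
      rw [if_pos rfl, Matrix.smul_mul, Matrix.mul_smul, smul_smul, F.h2, ← Complex.ofReal_mul, hs]
      simp [two_smul]
    · rw [if_neg h]
      simp only [Matrix.smul_mul, Matrix.mul_smul, smul_smul, F.h3 i j h, mul_comm (s j : ℂ)]
      simp
  have e2 : (2 : ℂ) • ((∑ i, (s i : ℂ) • A i) * (∑ i, (s i : ℂ) • A i)) = (2 : ℂ) • (25 : ℂ) • 1 := by
    rw [two_smul, Finset.sum_mul_sum]
    nth_rewrite 2 [Finset.sum_comm]
    simp only [← Finset.sum_add_distrib, e, Finset.sum_ite_eq, Finset.mem_univ, if_true,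
      Finset.sum_const, Finset.card_univ, Fintype.card_fin]
    rw [smul_comm, ← Nat.cast_smul_eq_nsmul ℂ]
    norm_num
  exact smul_right_injective _ two_ne_zero e2

lemma Fam.core {A : Fin 25 → Matrix V V ℂ} (F : Fam A) (hV : 0 < Fintype.card V)
    (Q : (Fin 25 → Fin 2) → Matrix V V ℂ) (hQ : IsPOVM Q)
    (a : ∀ i, ∑ y with y i ≠ 0, (Q y).trace.re ≤ 4 / 9 * Fintype.card V)
    (b : ∀ i, ∑ y with y i ≠ 1, (Q y * (1 + A i)).trace.re ≤ 4 / 9 * Fintype.card V) : False := by
  let s : (Fin 25 → Fin 2) → Fin 25 → ℝ := fun y i => if y i ≠ 0 then 1 else -1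
  have hs : ∀ y i, s y i * s y i = 1 := by
    intro y i; simp only [s]; split_ifs <;> norm_num
  have up : ∀ y, ∑ i, s y i * (Q y * A i).trace.re ≤ 5 * (Q y).trace.re := by
    intro y
    set B := ∑ i, (s y i : ℂ) • A i with hB
    have hBB : B * B = (25 : ℂ) • 1 := F.sq _ (hs y)
    have hc : Bᴴ = B := by
      simp [hB, Matrix.conjTranspose_sum, F.h1]
    have p := ((hQ.1 y).conjTranspose_mul_mul_same ((5 : ℂ) • 1 - B)).trace_nonneg
    have e : ((5 : ℂ) • 1 - B) * ((5 : ℂ) • 1 - B)ᴴ = (50 : ℂ) • 1 - (10 : ℂ) • B := by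
      rw [Matrix.conjTranspose_sub, hc, Matrix.conjTranspose_smul, Matrix.conjTranspose_one]
      simp only [Matrix.sub_mul, Matrix.mul_sub, Matrix.smul_mul, Matrix.mul_smul, Matrix.one_mul,
        Matrix.mul_one, hBB, star_ofNat]
      module
    rw [Matrix.trace_mul_cycle, e, Matrix.trace_mul_comm, Matrix.mul_sub, Matrix.mul_smul,
      Matrix.mul_smul, Matrix.mul_one, Matrix.trace_sub, Matrix.trace_smul, Matrix.trace_smul, hB,
      Finset.mul_sum, Matrix.trace_sum] at p
    have p2 := (Complex.nonneg_iff.1 p).1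
    simp only [Matrix.mul_smul, Matrix.trace_smul, smul_eq_mul, Complex.sub_re, Complex.mul_re,
      Complex.re_ofNat, Complex.im_ofNat, Complex.re_sum, Complex.ofReal_re, Complex.ofReal_im,
      zero_mul, sub_zero] at p2
    linarith
  have tot : ∑ y, (Q y).trace.re = Fintype.card V := by
    rw [← Complex.re_sum, ← Matrix.trace_sum, hQ.2]; simp
  have low : ∀ i, 2 / 9 * (Fintype.card V : ℝ) ≤ ∑ y, s y i * (Q y * A i).trace.re := by
    intro i
    have z : ∑ y, (Q y * A i).trace.re = 0 := by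
      rw [← Complex.re_sum, ← Matrix.trace_sum, ← Finset.sum_mul, hQ.2, Matrix.one_mul, F.tr]; simp
    have f : ∀ y : Fin 25 → Fin 2, y i ≠ 1 ↔ ¬ (y i ≠ 0) := by
      intro y; generalize y i = t; revert t; decide
    have a1 := a i
    have b1 := b i
    simp only [Matrix.mul_add, Matrix.mul_one, Matrix.trace_add, Complex.add_re,
      Finset.sum_add_distrib, f] at b1
    rw [← Finset.sum_filter_add_sum_filter_not Finset.univ (fun y => y i ≠ 0)] at tot z
    simp only [s, ite_mul, one_mul, neg_mul, Finset.sum_ite, Finset.sum_neg_distrib]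
    linarith
  have h1 := Finset.sum_le_sum fun y (_ : y ∈ Finset.univ) => up y
  have h2 := Finset.sum_le_sum fun i (_ : i ∈ Finset.univ) => low i
  rw [Finset.sum_comm] at h1
  rw [← Finset.mul_sum, tot] at h1
  simp only [Finset.sum_const, Finset.card_univ, Fintype.card_fin, nsmul_eq_mul] at h2
  have : (0 : ℝ) < Fintype.card V := by exact_mod_cast hV
  push_cast at h2
  linarith

open scoped MatrixOrder in
lemma bd_psd {o : Type} [Fintype o] [DecidableEq o] (m : o → Matrix V V ℂ)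
    (h : ∀ f, (m f).PosSemidef) : (blockDiagonal m).PosSemidef := by
  choose B hB using fun f => CStarAlgebra.nonneg_iff_eq_star_mul_self.mp (h f).nonneg
  have : blockDiagonal m = (blockDiagonal B)ᴴ * blockDiagonal B := by
    rw [blockDiagonal_conjTranspose, ← blockDiagonal_mul]
    congr 1
    exact funext hB
  rw [this]
  exact posSemidef_conjTranspose_mul_self _

lemma tr_bd {o : Type} [Fintype o] [DecidableEq o] (Q : Matrix (V × o) (V × o) ℂ) (f : o)
    (σ : Matrix V V ℂ) : (Q * blockDiagonal (Pi.single f σ : o → Matrix V V ℂ)).trace =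
      (Q.submatrix (fun v => (v, f)) (fun v => (v, f)) * σ).trace := by
  simp only [Matrix.trace, Matrix.diag, Matrix.mul_apply, Fintype.sum_prod_type,
    blockDiagonal_apply, mul_ite, mul_zero, Finset.sum_ite_eq', Finset.mem_univ, if_true,
    Matrix.submatrix_apply]
  apply Finset.sum_congr rfl
  intro v _
  rw [Finset.sum_eq_single f]
  · simp
  · intro g _ hg; simp [hg]
  · simp

lemma Fam.psd {A : Fin 25 → Matrix V V ℂ} (F : Fam A) (ε : ℝ) (hε : ε * ε = 1) (i : Fin 25) :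
    (1 + (ε : ℂ) • A i).PosSemidef := by
  have h : ((1 / 2 : ℂ) • ((1 + (ε : ℂ) • A i)ᴴ * (1 + (ε : ℂ) • A i))).PosSemidef :=
    (posSemidef_conjTranspose_mul_self _).smul (by norm_num [Complex.nonneg_iff])
  have e : (1 / 2 : ℂ) • ((1 + (ε : ℂ) • A i)ᴴ * (1 + (ε : ℂ) • A i)) = 1 + (ε : ℂ) • A i := by
    simp only [Matrix.conjTranspose_add, Matrix.conjTranspose_one, Matrix.conjTranspose_smul, F.h1,
      Matrix.add_mul, Matrix.mul_add, Matrix.one_mul, Matrix.mul_one, Matrix.smul_mul,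
      Matrix.mul_smul, F.h2, smul_add, smul_smul, Complex.star_def, Complex.conj_ofReal,
      ← Complex.ofReal_mul, hε, Complex.ofReal_one]
    module
  rwa [e] at h

abbrev W : Type := Fin 25 → Fin 2

def e1 (j : Fin 25) : W := Pi.single j 1

/-- Flag of a string: strings of weight at most one share the flag 0. -/
noncomputable def fl (x : W) : W := by
  classical exact if ∃ j, x = e1 j then 0 else x

noncomputable def sig (A : Fin 25 → Matrix V V ℂ) (x : W) : Matrix V V ℂ :=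
  ((Fintype.card V : ℂ)⁻¹) • (1 + ∑ j with x = e1 j, A j)

lemma e1_inj {i j : Fin 25} (h : e1 i = e1 j) : i = j := by
  by_contra hn
  have := congrFun h i
  simp [e1, hn] at this

lemma e1_ne (i : Fin 25) : (0 : W) ≠ e1 i := by
  intro h
  have := congrFun h i
  simp [e1] at this

lemma sig_e (A : Fin 25 → Matrix V V ℂ) (i : Fin 25) :
    sig A (e1 i) = ((Fintype.card V : ℂ)⁻¹) • (1 + A i) := by
  have : (Finset.univ.filter fun j => e1 i = e1 j) = {i} := by
    ext j; simp only [Finset.mem_filter, Finset.mem_univ, true_and, Finset.mem_singleton]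
    exact ⟨fun h => (e1_inj h).symm, fun h => h ▸ rfl⟩
  rw [sig, this, Finset.sum_singleton]

lemma sig_n (A : Fin 25 → Matrix V V ℂ) (x : W) (h : ¬ ∃ j, x = e1 j) :
    sig A x = ((Fintype.card V : ℂ)⁻¹) • 1 := by
  rw [sig, Finset.sum_eq_zero, add_zero]
  intro j hj
  exact absurd ⟨j, (Finset.mem_filter.1 hj).2⟩ h

noncomputable def rho (A : Fin 25 → Matrix V V ℂ) (x : W) : Matrix (V × W) (V × W) ℂ :=
  blockDiagonal (Pi.single (fl x) (sig A x) : W → Matrix V V ℂ)

noncomputable def tst (A : Fin 25 → Matrix V V ℂ) (i : Fin 25) (b : Fin 2) (f : W) :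
    Matrix V V ℂ :=
  if f = 0 then (if b = 1 then (1 / 3 : ℂ) • (1 + A i) else (1 / 3 : ℂ) • (1 + (1 - A i)))
  else if f i = b then 1 else 0

lemma Fam.code {A : Fin 25 → Matrix V V ℂ} (F : Fam A) (hV : 0 < Fintype.card V) :
    IsCode (2 / 3) (rho A) := by
  have c0 : (Fintype.card V : ℂ) ≠ 0 := by exact_mod_cast hV.ne'
  have c1 : (0 : ℂ) ≤ (Fintype.card V : ℂ)⁻¹ := by
    rw [← Complex.ofReal_natCast, ← Complex.ofReal_inv]; exact_mod_cast (by positivity)
  have c3 : (0 : ℂ) ≤ 1 / 3 := by norm_num [Complex.nonneg_iff]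
  have p1 : ∀ i, (1 + A i).PosSemidef := fun i => by simpa using F.psd 1 (by norm_num) i
  have p2 : ∀ i, (1 - A i).PosSemidef := fun i => by
    simpa [sub_eq_add_neg] using F.psd (-1) (by norm_num) i
  have t1 : ∀ x, (sig A x).trace = 1 := by
    intro x
    simp [sig, Matrix.trace_sum, F.tr, c0]
  have ps : ∀ x, (sig A x).PosSemidef := by
    intro x
    by_cases h : ∃ j, x = e1 j
    · obtain ⟨j, rfl⟩ := h
      rw [sig_e]; exact (p1 j).smul c1
    · rw [sig_n A x h]; exact PosSemidef.one.smul c1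
  refine ⟨fun x => ⟨bd_psd _ fun f => ?_, ?_⟩, fun i => ⟨fun b => blockDiagonal (tst A i b),
    ⟨fun b => bd_psd _ fun f => ?_, ?_⟩, fun x => ?_⟩⟩
  · by_cases h : f = fl x
    · subst h; simpa using ps x
    · simp [h, PosSemidef.zero]
  · have := tr_bd 1 (fl x) (sig A x)
    rw [Matrix.one_mul, Matrix.submatrix_one _ (fun _ _ h => (Prod.mk.inj h).1),
      Matrix.one_mul, t1] at this
    exact this
  · unfold tst
    split_ifs
    · exact (p1 i).smul c3
    · exact (PosSemidef.one.add (p2 i)).smul c3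
    · exact PosSemidef.one
    · exact PosSemidef.zero
  · rw [Fin.sum_univ_two, ← blockDiagonal_add, ← blockDiagonal_one]
    congr 1
    funext f
    by_cases h : f = 0
    · simp only [tst, h, Pi.add_apply, if_true, Pi.one_apply, zero_ne_one, if_false]
      module
    · simp only [tst, h, Pi.add_apply, if_false, Pi.one_apply]
      generalize f i = t
      fin_cases t <;> simp
  · rw [rho, tr_bd]
    have e : (blockDiagonal (tst A i (x i))).submatrix (fun v => (v, fl x)) (fun v => (v, fl x)) =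
        tst A i (x i) (fl x) := by
      ext u v; simp [blockDiagonal_apply]
    rw [e]
    by_cases h : ∃ j, x = e1 j
    · have hf : fl x = 0 := by simp [fl, h]
      obtain ⟨j, rfl⟩ := h
      rw [hf, sig_e]
      by_cases hj : j = i
      · subst hj
        simp [tst, e1, Matrix.mul_add, Matrix.add_mul, F.h2, F.tr]
        field_simp
        norm_num
      · have : (A i * A j).trace = 0 := tr_zero _ _ (F.h3 i j (Ne.symm hj))
        simp [tst, e1, Matrix.mul_add, Matrix.add_mul, Matrix.sub_mul, F.tr, Ne.symm hj, this]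
        field_simp
        norm_num
    · have hf : fl x = x := by simp [fl, h]
      rw [hf, sig_n A x h]
      by_cases h0 : x = 0
      · subst h0
        simp [tst, F.tr]
        field_simp
        norm_num
      · simp [tst, h0, c0]
        norm_num

lemma Fam.bad {A : Fin 25 → Matrix V V ℂ} (F : Fam A) (hV : 0 < Fintype.card V)
    (Q : W → Matrix (V × W) (V × W) ℂ) (hQ : IsPOVM Q) : ∃ x i, 4 / 9 < errProb Q (rho A) x i := by
  by_contra hn
  push Not at hn
  have c0 : (0 : ℝ) < Fintype.card V := by exact_mod_cast hV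
  have r : ∀ z : ℂ, ((Fintype.card V : ℂ)⁻¹ * z).re = (Fintype.card V : ℝ)⁻¹ * z.re := by
    intro z
    rw [← Complex.ofReal_natCast, ← Complex.ofReal_inv, Complex.re_ofReal_mul]
  refine F.core hV (fun y => (Q y).submatrix (fun v => (v, 0)) (fun v => (v, 0)))
    ⟨fun y => (hQ.1 y).submatrix _, ?_⟩ (fun i => ?_) (fun i => ?_)
  · rw [← Matrix.submatrix_one (fun v : V => (v, (0 : W))) (fun _ _ h => (Prod.mk.inj h).1), ← hQ.2]
    ext u v
    simp [Matrix.sum_apply]
  · have h := hn 0 i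
    have h0 : ¬ ∃ j, (0 : W) = e1 j := fun ⟨j, hj⟩ => e1_ne j hj
    have hf : fl 0 = 0 := by simp [fl]
    simp only [errProb, rho, tr_bd, hf, sig_n A 0 h0, Matrix.mul_smul, Matrix.mul_one,
      Matrix.trace_smul, smul_eq_mul, r, ← Finset.mul_sum, Pi.zero_apply] at h
    rwa [inv_mul_le_iff₀ c0, mul_comm] at h
  · have h := hn (e1 i) i
    have hf : fl (e1 i) = 0 := by simp [fl]
    have hi : e1 i i = 1 := by simp [e1]
    simp only [errProb, rho, tr_bd, hf, sig_e, Matrix.mul_smul,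
      Matrix.trace_smul, smul_eq_mul, r, ← Finset.mul_sum, hi] at h
    rwa [inv_mul_le_iff₀ c0, mul_comm] at h

end

open Pool.Agent.H33.LU in
lemma fam : ∃ A : Fin 25 → Matrix W W ℂ, Fam A := by
  let g : Fin 25 → Fin 25 → Fin 4 := fun j k => if k < j then 2 else if k = j then 1 else 0
  refine ⟨fun j => ps (g j), fun i => ps_ct _, fun i => ps_sq _, fun i j hij => ?_⟩
  have e : ∀ i j : Fin 25, i ≠ j → ∏ k, e2 (g i k) (g j k) = -1 := by
    intro i j hij
    rw [Finset.prod_eq_single (min i j)]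
    · rcases lt_or_gt_of_ne hij with h | h
      · simp [g, e2, h.le, h]
      · simp [g, e2, h.le, h]
    · intro k _ hk
      rw [e2, if_pos]
      rcases lt_or_gt_of_ne hk with h | h
      · simp [g, (lt_min_iff.1 h).1, (lt_min_iff.1 h).2]
      · rcases min_lt_iff.1 h with h | h
        · simp [g, h.not_gt, h.ne']
        · simp [g, h.not_gt, h.ne']
    · simp
  simp only [ps, ten_mul]
  have : (fun k => sg (g i k) * sg (g j k)) =
      fun k => (e2 (g i k) (g j k) : ℂ) • (sg (g j k) * sg (g i k)) := funext fun k => sg_comm _ _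
  rw [this, ten_smul, ← Int.cast_prod, e i j hij]
  simp

lemma tr_sub {ι κ : Type} [Fintype ι] [Fintype κ] (e : κ ≃ ι) (A B : Matrix ι ι ℂ) :
    (A.submatrix e e * B.submatrix e e).trace = (A * B).trace := by
  rw [Matrix.submatrix_mul_equiv]
  exact Equiv.sum_comp e fun i => (A * B) i i

lemma povm_sub {ι κ S : Type} [Fintype ι] [Fintype κ] [DecidableEq ι] [DecidableEq κ] [Fintype S]
    (e : κ ≃ ι) (Q : S → Matrix ι ι ℂ) (h : IsPOVM Q) : IsPOVM fun s => (Q s).submatrix e e := by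
  refine ⟨fun s => (h.1 s).submatrix _, ?_⟩
  rw [← Matrix.submatrix_one_equiv e, ← h.2]
  ext u v
  simp [Matrix.sum_apply]

lemma main {κ : Type} [Fintype κ] [DecidableEq κ] (e : κ ≃ W × W) :
    ∃ ρ : W → Matrix κ κ ℂ, IsCode (2 / 3) ρ ∧
      ∀ Q : W → Matrix κ κ ℂ, IsPOVM Q → ∃ x i, 4 / 9 < errProb Q ρ x i := by
  obtain ⟨A, F⟩ := fam
  have hV : 0 < Fintype.card W := Fintype.card_pos_iff.2 ⟨0⟩
  obtain ⟨c1, c2⟩ := F.code hV
  refine ⟨fun x => (rho A x).submatrix e e,
    ⟨fun x => ⟨(c1 x).1.submatrix _, ?_⟩, fun i => ?_⟩, fun Q hQ => ?_⟩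
  · rw [← (c1 x).2]
    exact Equiv.sum_comp e fun i => rho A x i i
  · obtain ⟨M, hM, h⟩ := c2 i
    exact ⟨_, povm_sub e M hM, fun x => by rw [tr_sub]; exact h x⟩
  · obtain ⟨x, i, h⟩ := F.bad hV _ (povm_sub e.symm Q hQ)
    refine ⟨x, i, ?_⟩
    have : errProb Q (fun x => (rho A x).submatrix e e) x i =
        errProb (fun s => (Q s).submatrix e.symm e.symm) (rho A) x i := by
      unfold errProb
      apply Finset.sum_congr rfl
      intro y _
      rw [← tr_sub e.symm]
      simp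
    rw [this]
    exact h

lemma eqv (n m : ℕ) (h : m = n + n) :
    Nonempty (Fin (2 ^ m) ≃ (Fin n → Fin 2) × (Fin n → Fin 2)) :=
  ⟨Fintype.equivOfCardEq (by simp [h, pow_add])⟩

theorem result : ∃ (n m : ℕ) (p : ℝ) (ρ : (Fin n → Fin 2) → Matrix (Fin (2 ^ m)) (Fin (2 ^ m)) ℂ),
    1 ≤ n ∧ 1 ≤ m ∧ 1 / 2 < p ∧ p ≤ 1 ∧ IsCode p ρ ∧
    ∀ Q : (Fin n → Fin 2) → Matrix (Fin (2 ^ m)) (Fin (2 ^ m)) ℂ, IsPOVM Q →
      ∃ x i, 2 * p * (1 - p) < errProb Q ρ x i := by
  obtain ⟨m, hm⟩ : ∃ m : ℕ, m = 25 + 25 := ⟨_, rfl⟩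
  obtain ⟨e⟩ := eqv 25 m hm
  obtain ⟨ρ, h1, h2⟩ := main e
  refine ⟨25, m, 2 / 3, ρ, by norm_num, by omega, by norm_num, by norm_num, h1, fun Q hQ => ?_⟩
  obtain ⟨x, i, h⟩ := h2 Q hQ
  exact ⟨x, i, by linarith⟩

end Pool.Agent.Results.MP_49fc99_mp.Anticommuting
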